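import Mathlib

/-!
# Strongly woody colourings of degenerate graphs: the greedy colouring
-/

set_option autoImplicit false

namespace Pool.Agent.Q213.SA

open Finset

variable {V : Type} [DecidableEq V]

theorem greedy (r : V → ℕ) (K : ℕ) (F : V → Finset ℕ) (B : Finset V) :
    Set.InjOn r B → (∀ u ∈ B, (F u).card + (B.filter (fun x => r x < r u)).card < K) →
    ∃ g : V → ℕ, (∀ u ∈ B, g u < K ∧ g u ∉ F u) ∧ ∀ u ∈ B, ∀ u' ∈ B, u ≠ u' → g u ≠ g u' := by
  induction B using Finset.induction_on_max_value r with
  | empty => intro _ _; exact ⟨fun _ => 0, by simp, by simp⟩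
  | insert a s ha hmax ih =>
    intro hinj h
    obtain ⟨g, hg1, hg2⟩ := ih (hinj.mono (by simp)) (fun u hu => by
      refine lt_of_le_of_lt (Nat.add_le_add_left (card_le_card ?_) _) (h u (mem_insert_of_mem hu))
      intro x hx
      rw [mem_filter] at hx ⊢
      exact ⟨mem_insert_of_mem hx.1, hx.2⟩)
    have hs : s ⊆ (insert a s).filter (fun x => r x < r a) := by
      intro x hx
      rw [mem_filter]
      refine ⟨mem_insert_of_mem hx, lt_of_le_of_ne (hmax x hx) fun he => ?_⟩
      have := hinj (mem_coe.2 (mem_insert_of_mem hx)) (mem_coe.2 (mem_insert_self a s)) he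
      exact ha (this ▸ hx)
    have hlt : (F a ∪ s.image g).card < (range K).card := by
      rw [card_range]
      have h1 := card_union_le (F a) (s.image g)
      have h2 := card_image_le (s := s) (f := g)
      have h3 := h a (mem_insert_self a s)
      have h4 := card_le_card hs
      omega
    obtain ⟨x, hx1, hx2⟩ := exists_mem_notMem_of_card_lt_card hlt
    rw [mem_union, not_or] at hx2
    refine ⟨Function.update g a x, ?_, ?_⟩
    · intro u hu
      rcases mem_insert.1 hu with rfl | hu'
      · rw [Function.update_self]
        exact ⟨mem_range.1 hx1, hx2.1⟩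
      · have hne : u ≠ a := fun h => ha (h ▸ hu')
        rw [Function.update_of_ne hne]
        exact hg1 u hu'
    · intro u hu u' hu' hne
      rcases mem_insert.1 hu with h1 | h1 <;> rcases mem_insert.1 hu' with h2 | h2
      · exact absurd (h1.trans h2.symm) hne
      · subst h1
        rw [Function.update_self, Function.update_of_ne hne.symm]
        exact fun he => hx2.2 (he ▸ mem_image_of_mem g h2)
      · subst h2
        rw [Function.update_self, Function.update_of_ne hne]
        exact fun he => hx2.2 (he ▸ mem_image_of_mem g h1)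
      · have e1 : u ≠ a := fun h => ha (h ▸ h1)
        have e2 : u' ≠ a := fun h => ha (h ▸ h2)
        rw [Function.update_of_ne e1, Function.update_of_ne e2]
        exact hg2 u h1 u' h2 hne

/-- the conditions at the vertex `v` -/
def Cond (G : SimpleGraph V) (r : V → ℕ) (K : ℕ) (col : V → V → ℕ) (v : V) : Prop :=
  (∀ u, G.Adj u v → r u < r v → col v u < K) ∧
  (∀ u u', G.Adj u v → r u < r v → G.Adj u' v → r u' < r v → u ≠ u' → col v u ≠ col v u') ∧
  (∀ u w, G.Adj u v → r u < r v → G.Adj w u → r w < r u → col v u ≠ col u w) ∧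
  (∀ u w, G.Adj u v → r u < r v → G.Adj w v → G.Adj w u → r w < r u → col v w ≠ col u w)

open Classical in
theorem exists_col [Fintype V] (G : SimpleGraph V) (r : V → ℕ) (d : ℕ)
    (hr : Function.Injective r)
    (hd : ∀ v, (univ.filter (fun u => G.Adj u v ∧ r u < r v)).card ≤ d) (m : ℕ) :
    ∃ col : V → V → ℕ, ∀ v, r v < m → Cond G r (2 * d) col v := by
  induction m with
  | zero => exact ⟨fun _ _ => 0, fun v hv => absurd hv (Nat.not_lt_zero _)⟩
  | succ m ih =>
    obtain ⟨col, hcol⟩ := ih
    by_cases hex : ∃ v, r v = m
    swap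
    · refine ⟨col, fun v hv => hcol v ?_⟩
      rcases Nat.lt_succ_iff_lt_or_eq.1 hv with h | h
      · exact h
      · exact absurd ⟨v, h⟩ hex
    obtain ⟨v0, hv0⟩ := hex
    set B := univ.filter (fun u => G.Adj u v0 ∧ r u < r v0) with hB
    have hBm : ∀ u, u ∈ B ↔ G.Adj u v0 ∧ r u < r v0 := fun u => by simp [hB]
    let F : V → Finset ℕ := fun u =>
      (univ.filter (fun w => G.Adj w u ∧ r w < r u)).image (col u) ∪
        (B.filter (fun u' => r u < r u')).image (fun u' => col u' u)
    obtain ⟨g, hg1, hg2⟩ := greedy r (2 * d) F B hr.injOn (fun u hu => by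
      have h1 : (F u).card ≤ d + (B.filter (fun u' => r u < r u')).card := by
        refine (card_union_le _ _).trans (add_le_add (card_image_le.trans (hd u)) card_image_le)
      have h2 : (B.filter (fun u' => r u < r u')).card + (B.filter (fun x => r x < r u)).card ≤
          (B.erase u).card := by
        rw [← card_union_of_disjoint]
        · apply card_le_card
          intro x hx
          rw [mem_erase]
          rcases mem_union.1 hx with hx | hx
          · obtain ⟨hx1, hx2⟩ := mem_filter.1 hx
            exact ⟨fun h => lt_irrefl _ (h ▸ hx2), hx1⟩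
          · obtain ⟨hx1, hx2⟩ := mem_filter.1 hx
            exact ⟨fun h => lt_irrefl _ (h ▸ hx2), hx1⟩
        · rw [disjoint_left]
          intro x hx hx'
          exact lt_asymm (mem_filter.1 hx).2 (mem_filter.1 hx').2
      have h3 := card_erase_add_one hu
      have h4 := hd v0
      rw [← hB] at h4
      omega)
    refine ⟨Function.update col v0 g, fun v hv => ?_⟩
    rcases Nat.lt_succ_iff_lt_or_eq.1 hv with h | h
    · obtain ⟨c1, c2, c3, c4⟩ := hcol v h
      have hne : ∀ x, r x < m → x ≠ v0 := fun x hx he => by rw [he, hv0] at hx; exact lt_irrefl _ hx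
      refine ⟨?_, ?_, ?_, ?_⟩
      · intro u h1 h2
        rw [Function.update_of_ne (hne v h)]
        exact c1 u h1 h2
      · intro u u' h1 h2 h3 h4 h5
        rw [Function.update_of_ne (hne v h)]
        exact c2 u u' h1 h2 h3 h4 h5
      · intro u w h1 h2 h3 h4
        rw [Function.update_of_ne (hne v h), Function.update_of_ne (hne u (h2.trans h))]
        exact c3 u w h1 h2 h3 h4
      · intro u w h1 h2 h3 h4 h5
        rw [Function.update_of_ne (hne v h), Function.update_of_ne (hne u (h2.trans h))]
        exact c4 u w h1 h2 h3 h4 h5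
    · have hv : v = v0 := hr (h.trans hv0.symm)
      subst hv
      have hne : ∀ x, r x < r v → x ≠ v := fun x hx he => by rw [he] at hx; exact lt_irrefl _ hx
      refine ⟨?_, ?_, ?_, ?_⟩
      · intro u h1 h2
        rw [Function.update_self]
        exact (hg1 u ((hBm u).2 ⟨h1, h2⟩)).1
      · intro u u' h1 h2 h3 h4 h5
        rw [Function.update_self]
        exact hg2 u ((hBm u).2 ⟨h1, h2⟩) u' ((hBm u').2 ⟨h3, h4⟩) h5
      · intro u w h1 h2 h3 h4
        rw [Function.update_self, Function.update_of_ne (hne u h2)]
        intro he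
        apply (hg1 u ((hBm u).2 ⟨h1, h2⟩)).2
        simp only [F, mem_union]
        left
        rw [he]
        exact mem_image_of_mem _ (by simp [h3, h4])
      · intro u w h1 h2 h3 h4 h5
        rw [Function.update_self, Function.update_of_ne (hne u h2)]
        intro he
        apply (hg1 w ((hBm w).2 ⟨h3, h5.trans h2⟩)).2
        simp only [F, mem_union]
        right
        rw [he]
        exact mem_image.2 ⟨u, by simp [hBm, h1, h2, h5], rfl⟩

end Pool.Agent.Q213.SA
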