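import Pool.Agent.Q213.SA.Greedy

/-!
# Strong arboricity: at most twice the degeneracy, hence less than four times the arboricity
-/

set_option autoImplicit false

namespace Pool.Agent.Q213.SA

open Finset

variable {V : Type}

/-- The edge colouring `c` of `G` is woody: no cycle is monochromatic. -/
def Woody (G : SimpleGraph V) (c : Sym2 V → ℕ) : Prop :=
  ∀ (v : V) (p : G.Walk v v), p.IsCycle → ¬ ∃ i, ∀ e ∈ p.edges, c e = i

/-- The edge colouring `c` of `G` is strongly woody: no broken cycle is monochromatic. A broken cycle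
(a cycle without one of its edges) is a path with at least two edges whose ends are adjacent. -/
def StronglyWoody (G : SimpleGraph V) (c : Sym2 V → ℕ) : Prop :=
  ∀ (a b : V) (p : G.Walk a b), p.IsPath → 2 ≤ p.length → G.Adj a b →
    ¬ ∃ i, ∀ e ∈ p.edges, c e = i

/-- The arboricity: the least number `k` of colours `0, …, k - 1` of a woody colouring. -/
noncomputable def arb (G : SimpleGraph V) : ℕ :=
  sInf {k | ∃ c : Sym2 V → ℕ, (∀ e ∈ G.edgeSet, c e < k) ∧ Woody G c}

/-- The strong arboricity: the least number `k` of colours of a strongly woody colouring. -/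
noncomputable def zeta (G : SimpleGraph V) : ℕ :=
  sInf {k | ∃ c : Sym2 V → ℕ, (∀ e ∈ G.edgeSet, c e < k) ∧ StronglyWoody G c}

theorem strongly_of_col [DecidableEq V] (G : SimpleGraph V) (r : V → ℕ)
    (hr : Function.Injective r) (K : ℕ) (col : V → V → ℕ) (h : ∀ v, Cond G r K col v) :
    ∃ c : Sym2 V → ℕ, (∀ e ∈ G.edgeSet, c e < K) ∧ StronglyWoody G c := by
  let f : V → V → ℕ := fun u v => if r u < r v then col v u else col u v
  have hf : ∀ u v, f u v = f v u := by
    intro u v
    simp only [f]
    rcases lt_trichotomy (r u) (r v) with h1 | h1 | h1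
    · rw [if_pos h1, if_neg (not_lt.2 h1.le)]
    · rw [hr h1]
    · rw [if_neg (not_lt.2 h1.le), if_pos h1]
  let c : Sym2 V → ℕ := Sym2.lift ⟨f, hf⟩
  have hc : ∀ u v, r u < r v → c s(u, v) = col v u := by
    intro u v huv
    simp only [c, Sym2.lift_mk, f]
    rw [if_pos huv]
  have hc' : ∀ u v, r u < r v → c s(v, u) = col v u := by
    intro u v huv
    rw [Sym2.eq_swap]
    exact hc u v huv
  have key : ∀ x y z, G.Adj x y → G.Adj y z → x ≠ z → c s(x, y) = c s(y, z) →
      r y < r x ∧ r y < r z := by
    intro x y z h1 h2 hxz he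
    have e1 : r x ≠ r y := fun h' => h1.ne (hr h')
    have e2 : r y ≠ r z := fun h' => h2.ne (hr h')
    rcases lt_or_gt_of_ne e1 with g1 | g1 <;> rcases lt_or_gt_of_ne e2 with g2 | g2
    · -- x < y < z
      rw [hc x y g1, hc y z g2] at he
      exact absurd he.symm ((h z).2.2.1 y x h2 g2 h1 g1)
    · -- x < y, z < y
      rw [hc x y g1, hc' z y g2] at he
      exact absurd he ((h y).2.1 x z h1 g1 h2.symm g2 hxz)
    · exact ⟨g1, g2⟩
    · -- z < y < x
      rw [hc' y x g1, hc' z y g2] at he
      exact absurd he ((h x).2.2.1 y z h1.symm g1 h2.symm g2)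
  refine ⟨c, ?_, ?_⟩
  · intro e
    induction e using Sym2.ind with
    | _ u v =>
      intro he
      rw [SimpleGraph.mem_edgeSet] at he
      have e1 : r u ≠ r v := fun h' => he.ne (hr h')
      rcases lt_or_gt_of_ne e1 with g1 | g1
      · rw [hc u v g1]
        exact (h v).1 u he g1
      · rw [hc' v u g1]
        exact (h u).1 v he.symm g1
  · rintro a b p hp hlen hab ⟨i, hi⟩
    cases p with
    | nil => simp at hlen
    | cons h1 q =>
      rename_i y
      cases q with
      | nil => simp at hlen
      | cons h2 q2 =>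
        rename_i z
        have ca : c s(a, y) = i := hi _ (by simp)
        have cb : c s(y, z) = i := hi _ (by simp)
        have haz : a ≠ z := by
          intro haz
          subst haz
          rw [SimpleGraph.Walk.cons_isPath_iff] at hp
          exact hp.2 (by simp)
        obtain ⟨k1, k2⟩ := key a y z h1 h2 haz (ca.trans cb.symm)
        cases q2 with
        | nil =>
          -- triangle a, y, b
          have e1 : r a ≠ r b := fun h' => hab.ne (hr h')
          rw [hc' y a k1] at ca
          rw [hc y b k2] at cb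
          rcases lt_or_gt_of_ne e1 with g1 | g1
          · exact (h b).2.2.2 a y hab g1 h2 h1.symm k1 (cb.trans ca.symm)
          · exact (h a).2.2.2 b y hab.symm g1 h1.symm h2 k2 (ca.trans cb.symm)
        | cons h3 q3 =>
          rename_i t
          have cd : c s(z, t) = i := hi _ (by simp)
          have hyt : y ≠ t := by
            intro hyt
            subst hyt
            rw [SimpleGraph.Walk.cons_isPath_iff, SimpleGraph.Walk.cons_isPath_iff] at hp
            exact hp.1.2 (by simp)
          have := (key y z t h2 h3 hyt (cb.trans cd.symm)).1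
          exact lt_asymm this k2

open Classical in
/-- **strong arboricity is at most twice the degeneracy** -/
theorem zeta_le [Fintype V] (G : SimpleGraph V) (d : ℕ) (r : V → ℕ) (hr : Function.Injective r)
    (hd : ∀ v, {u | G.Adj u v ∧ r u < r v}.ncard ≤ d) : zeta G ≤ 2 * d := by
  have hd' : ∀ v, (univ.filter (fun u => G.Adj u v ∧ r u < r v)).card ≤ d := by
    intro v
    refine le_of_eq_of_le ?_ (hd v)
    rw [← Set.ncard_coe_finset]
    congr 1
    ext u
    simp
  obtain ⟨col, hcol⟩ := exists_col G r d hr hd' (univ.sup r + 1)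
  exact Nat.sInf_le (strongly_of_col G r hr (2 * d) col fun v =>
    hcol v (Nat.lt_succ_of_le (Finset.le_sup (mem_univ v))))

open Classical in
theorem exists_low [Fintype V] [Nonempty V] (H : SimpleGraph V) (k : ℕ) (hk : 0 < k)
    (c : Sym2 V → ℕ) (hc : ∀ e ∈ H.edgeSet, c e < k) (hw : Woody H c) :
    ∃ v, (univ.filter (fun u => H.Adj u v)).card < 2 * k := by
  by_contra hcon'
  push Not at hcon'
  have hcon : ∀ v, 2 * k ≤ H.degree v := by
    intro v
    refine (hcon' v).trans (le_of_eq ?_)
    rw [← SimpleGraph.card_neighborFinset_eq_degree]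
    congr 1
    ext u
    rw [mem_filter, SimpleGraph.mem_neighborFinset, SimpleGraph.adj_comm]
    simp
  have h1 : ∑ v, H.degree v = 2 * H.edgeFinset.card := H.sum_degrees_eq_twice_card_edges
  have h2 : Fintype.card V * (2 * k) ≤ ∑ v, H.degree v := by
    rw [← smul_eq_mul, ← Finset.card_univ]
    exact Finset.card_nsmul_le_sum _ _ _ (fun v _ => hcon v)
  have h3 : H.edgeFinset.card = ∑ i ∈ range k, (H.edgeFinset.filter (fun e => c e = i)).card :=
    Finset.card_eq_sum_card_fiberwise (fun e he => mem_coe.2 (mem_range.2 (hc e (by simpa using he))))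
  have h4 : ∀ i ∈ range k, (H.edgeFinset.filter (fun e => c e = i)).card + 1 ≤
      Fintype.card V := by
    intro i _
    let Hi : SimpleGraph V := SimpleGraph.fromEdgeSet {e | e ∈ H.edgeSet ∧ c e = i}
    have hle : Hi ≤ H := by
      intro v w h
      rw [SimpleGraph.fromEdgeSet_adj] at h
      exact (SimpleGraph.mem_edgeSet H).1 h.1.1
    have hac : Hi.IsAcyclic := by
      intro v p hp
      refine hw v (p.mapLe hle) ((SimpleGraph.Walk.isCycle_mapLe hle).2 hp) ⟨i, fun e he => ?_⟩
      rw [SimpleGraph.Walk.edges_mapLe_eq_edges] at he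
      have h5 := p.edges_subset_edgeSet he
      rw [SimpleGraph.edgeSet_fromEdgeSet] at h5
      exact h5.1.2
    obtain ⟨T, hT1, -, hT2⟩ :=
      (SimpleGraph.connected_top (V := V)).exists_isTree_le_of_le_of_isAcyclic le_top hac
    have h5 : T.edgeFinset.card + 1 = Fintype.card V := hT2.card_edgeFinset
    have h6 : H.edgeFinset.filter (fun e => c e = i) ⊆ T.edgeFinset := by
      intro e he
      rw [mem_filter, SimpleGraph.mem_edgeFinset] at he
      rw [SimpleGraph.mem_edgeFinset]
      apply SimpleGraph.edgeSet_mono hT1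
      rw [SimpleGraph.edgeSet_fromEdgeSet]
      exact ⟨he, SimpleGraph.not_isDiag_of_mem_edgeSet H he.1⟩
    have := card_le_card h6
    omega
  have h5 : H.edgeFinset.card + k ≤ k * Fintype.card V := by
    calc H.edgeFinset.card + k
        = ∑ i ∈ range k, ((H.edgeFinset.filter (fun e => c e = i)).card + 1) := by
          rw [sum_add_distrib, ← h3]; simp
      _ ≤ ∑ _i ∈ range k, Fintype.card V := sum_le_sum h4
      _ = k * Fintype.card V := by simp
  have h6 : Fintype.card V * (2 * k) = 2 * (k * Fintype.card V) := by ring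
  omega

theorem woody_comap (G : SimpleGraph V) (c : Sym2 V → ℕ) (hw : Woody G c) {W : Type}
    (f : W → V) (hf : Function.Injective f) : Woody (G.comap f) (fun e => c (e.map f)) := by
  rintro v p hp ⟨i, hi⟩
  have hc : (p.map (SimpleGraph.Hom.comap f G)).IsCycle := hp.map hf
  refine hw _ _ hc ⟨i, fun e he => ?_⟩
  rw [SimpleGraph.Walk.edges_map, List.mem_map] at he
  obtain ⟨e', he', rfl⟩ := he
  exact hi e' he'

theorem col_comap (G : SimpleGraph V) (c : Sym2 V → ℕ) (k : ℕ) (hc : ∀ e ∈ G.edgeSet, c e < k)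
    {W : Type} (f : W → V) : ∀ e ∈ (G.comap f).edgeSet, c (e.map f) < k := by
  intro e
  induction e using Sym2.ind with
  | _ u v =>
    intro he
    exact hc _ he

open Classical in
theorem sparse_vertex [Fintype V] (G : SimpleGraph V) (k : ℕ) (hk : 0 < k) (c : Sym2 V → ℕ)
    (hc : ∀ e ∈ G.edgeSet, c e < k) (hw : Woody G c) (S : Finset V) (hS : S.Nonempty) :
    ∃ v ∈ S, (S.filter (fun u => G.Adj u v)).card ≤ 2 * k - 1 := by
  have hne : Nonempty {x // x ∈ S} := hS.to_subtype
  obtain ⟨w, hwd⟩ := exists_low (G.comap (Subtype.val : {x // x ∈ S} → V)) k hk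
    (fun e => c (e.map Subtype.val)) (col_comap G c k hc _)
    (woody_comap G c hw _ Subtype.val_injective)
  refine ⟨w, w.2, ?_⟩
  have h2 : (S.filter (fun u => G.Adj u w)).card ≤
      (univ.filter (fun u : {x // x ∈ S} => G.Adj u w)).card := by
    rw [← card_map (Function.Embedding.subtype _)]
    apply card_le_card
    intro u hu
    rw [mem_filter] at hu
    exact mem_map.2 ⟨⟨u, hu.1⟩, mem_filter.2 ⟨mem_univ _, hu.2⟩, rfl⟩
  have h3 : (univ.filter (fun u : {x // x ∈ S} => G.Adj u w)).card < 2 * k := hwd
  omega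

open Classical in
theorem exists_order [Fintype V] (G : SimpleGraph V) (d : ℕ)
    (h : ∀ S : Finset V, S.Nonempty → ∃ v ∈ S, (S.filter (fun u => G.Adj u v)).card ≤ d) :
    ∀ (n : ℕ) (S : Finset V), S.card = n → ∃ r : V → ℕ, Set.InjOn r S ∧
      ∀ v ∈ S, (S.filter (fun u => G.Adj u v ∧ r u < r v)).card ≤ d := by
  intro n
  induction n with
  | zero =>
    intro S hS
    rw [card_eq_zero] at hS
    subst hS
    exact ⟨fun _ => 0, by simp, by simp⟩
  | succ n ih =>
    intro S hS
    obtain ⟨v0, hv0, hdeg⟩ := h S (card_pos.1 (by omega))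
    obtain ⟨r', hinj, hr'⟩ := ih (S.erase v0) (by rw [card_erase_of_mem hv0]; omega)
    have hsup : ∀ x ∈ S.erase v0, r' x ≤ (S.erase v0).sup r' := fun x hx => Finset.le_sup hx
    let r : V → ℕ := fun w => if w = v0 then (S.erase v0).sup r' + 1 else r' w
    have r0 : r v0 = (S.erase v0).sup r' + 1 := if_pos rfl
    have r1 : ∀ w, w ≠ v0 → r w = r' w := fun w hw => if_neg hw
    refine ⟨r, ?_, ?_⟩
    · intro x hx y hy hxy
      rw [mem_coe] at hx hy
      by_cases h1 : x = v0 <;> by_cases h2 : y = v0
      · rw [h1, h2]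
      · rw [h1, r0, r1 y h2] at hxy
        have := hsup y (mem_erase.2 ⟨h2, hy⟩)
        omega
      · rw [h2, r0, r1 x h1] at hxy
        have := hsup x (mem_erase.2 ⟨h1, hx⟩)
        omega
      · rw [r1 x h1, r1 y h2] at hxy
        exact hinj (mem_coe.2 (mem_erase.2 ⟨h1, hx⟩)) (mem_coe.2 (mem_erase.2 ⟨h2, hy⟩)) hxy
    · intro v hv
      by_cases h1 : v = v0
      · subst h1
        refine (card_le_card ?_).trans hdeg
        intro u hu
        rw [mem_filter] at hu ⊢
        exact ⟨hu.1, hu.2.1⟩
      · have hv' : v ∈ S.erase v0 := mem_erase.2 ⟨h1, hv⟩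
        refine (card_le_card ?_).trans (hr' v hv')
        intro u hu
        rw [mem_filter] at hu ⊢
        obtain ⟨hu1, hu2, hu3⟩ := hu
        have hne : u ≠ v0 := by
          intro h2
          rw [h2, r0, r1 v h1] at hu3
          have := hsup v hv'
          omega
        rw [r1 u hne, r1 v h1] at hu3
        exact ⟨mem_erase.2 ⟨hne, hu1⟩, hu2, hu3⟩

theorem woody_of_injective (G : SimpleGraph V) (c : Sym2 V → ℕ) (hc : Function.Injective c) :
    Woody G c := by
  rintro v p hp ⟨i, hi⟩
  have h3 := hp.three_le_length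
  have hn := hp.edges_nodup
  rw [← SimpleGraph.Walk.length_edges] at h3
  have h0 : 0 < p.edges.length := by omega
  have h1 : 1 < p.edges.length := by omega
  have e : p.edges[0] = p.edges[1] :=
    hc ((hi _ (List.getElem_mem h0)).trans (hi _ (List.getElem_mem h1)).symm)
  have := (hn.getElem_inj_iff (hi := h0) (hj := h1)).1 e
  omega

open Classical in
theorem zeta_le_arb [Fintype V] (G : SimpleGraph V) : zeta G ≤ 4 * arb G - 2 := by
  have hne : {k | ∃ c : Sym2 V → ℕ, (∀ e ∈ G.edgeSet, c e < k) ∧ Woody G c}.Nonempty := by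
    refine ⟨Fintype.card (Sym2 V), fun e => (Fintype.equivFin (Sym2 V) e : ℕ), ?_, ?_⟩
    · intro e _
      exact (Fintype.equivFin (Sym2 V) e).2
    · exact woody_of_injective G _ (Fin.val_injective.comp (Fintype.equivFin (Sym2 V)).injective)
  obtain ⟨c, hc, hw⟩ := Nat.sInf_mem hne
  change ∀ e ∈ G.edgeSet, c e < arb G at hc
  rcases Nat.eq_zero_or_pos (arb G) with h0 | hpos
  · have : zeta G ≤ 0 := by
      refine Nat.sInf_le ⟨fun _ => 0, fun e he => ?_, ?_⟩
      · have := hc e he
        omega
      · intro a b p _ _ hab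
        have := hc s(a, b) hab
        omega
    omega
  · obtain ⟨r, hinj, hr⟩ := exists_order G (2 * arb G - 1) (sparse_vertex G (arb G) hpos c hc hw)
      _ univ rfl
    have h1 := zeta_le G (2 * arb G - 1) r (fun x y hxy => hinj (by simp) (by simp) hxy) (by
      intro v
      refine le_of_eq_of_le ?_ (hr v (mem_univ v))
      rw [← Set.ncard_coe_finset]
      congr 1
      ext u
      simp)
    omega

end Pool.Agent.Q213.SA
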